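import Pool.Agent.Q218.Googol.Rule

set_option autoImplicit false

/-! # The instance, and its relation to the sums over extensions -/

namespace Pool.Agent.Q218.Googol

open Finset

lemma mem_orders {S : Finset ℕ} {L : List ℕ} : L ∈ orders S ↔ L.Nodup ∧ L.toFinset = S := by
  unfold orders
  rw [List.mem_toFinset, List.mem_permutations]
  constructor
  · intro h
    refine ⟨h.nodup_iff.2 S.nodup_toList, ?_⟩
    rw [List.toFinset_eq_of_perm _ _ h, Finset.toList_toFinset]
  · rintro ⟨h1, h2⟩
    apply List.perm_of_nodup_nodup_toFinset_eq h1 S.nodup_toList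
    rw [h2, Finset.toList_toFinset]

/-- the lists of `n` distinct elements of `{1, …, N}` -/
noncomputable def LL (N n : ℕ) : Finset (List ℕ) := ((Icc 1 N).powersetCard n).biUnion orders

lemma mem_LL {N n : ℕ} {L : List ℕ} : L ∈ LL N n ↔ Valid N L ∧ L.length = n := by
  unfold LL
  simp only [Finset.mem_biUnion, Finset.mem_powersetCard, mem_orders]
  constructor
  · rintro ⟨S, ⟨h1, h2⟩, h3, h4⟩
    refine ⟨⟨h3, fun x hx => h1 ?_⟩, ?_⟩
    · rw [← h4, List.mem_toFinset]; exact hx
    · rw [← h2, ← h4, List.toFinset_card_of_nodup h3]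
  · rintro ⟨⟨h1, h2⟩, h3⟩
    refine ⟨L.toFinset, ⟨fun x hx => h2 x (List.mem_toFinset.1 hx), ?_⟩, h1, rfl⟩
    rw [List.toFinset_card_of_nodup h1, h3]

lemma sum_LL {N n : ℕ} (f : List ℕ → ℝ) :
    ∑ L ∈ LL N n, f L = ∑ S ∈ (Icc 1 N).powersetCard n, ∑ L ∈ orders S, f L := by
  unfold LL
  apply Finset.sum_biUnion
  intro S _ T _ hST
  rw [Function.onFun, Finset.disjoint_left]
  intro L hS hT
  rw [mem_orders] at hS hT
  exact hST (hS.2.symm.trans hT.2)

lemma extSum_eq {N n : ℕ} (f : List ℕ → ℝ) : ∀ k P, Valid N P → P.length + k = n →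
    extSum N f k P = ∑ L ∈ (LL N n).filter (P <+: ·), f L := by
  intro k
  induction k with
  | zero =>
    intro P hV hl
    have : (LL N n).filter (P <+: ·) = {P} := by
      ext L
      rw [Finset.mem_filter, mem_LL, Finset.mem_singleton]
      constructor
      · rintro ⟨⟨_, h2⟩, h3⟩
        exact (h3.eq_of_length (by omega)).symm
      · rintro rfl
        exact ⟨⟨hV, by omega⟩, List.prefix_refl _⟩
    rw [this, Finset.sum_singleton]
    rfl
  | succ k ih =>
    intro P hV hl
    change ∑ x ∈ (Icc 1 N).filter (· ∉ P), extSum N f k (P ++ [x]) = _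
    have h1 : (LL N n).filter (P <+: ·) =
        ((Icc 1 N).filter (· ∉ P)).biUnion fun x => (LL N n).filter ((P ++ [x]) <+: ·) := by
      ext L
      simp only [Finset.mem_filter, Finset.mem_biUnion, mem_LL]
      constructor
      · rintro ⟨⟨h1, h2⟩, h3⟩
        obtain ⟨T, rfl⟩ := h3
        cases T with
        | nil => simp at h2; omega
        | cons x T =>
          refine ⟨x, ⟨h1.2 x (by simp), ?_⟩, ⟨h1, h2⟩, ?_⟩
          · intro hx
            have := h1.1
            rw [List.nodup_append] at this
            exact this.2.2 x hx x (by simp) rfl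
          · exact ⟨T, by simp⟩
      · rintro ⟨x, _, h1, h2⟩
        exact ⟨h1, (List.prefix_append P [x]).trans h2⟩
    rw [h1, Finset.sum_biUnion]
    · apply Finset.sum_congr rfl
      intro x hx
      rw [Finset.mem_filter] at hx
      exact ih _ (hV.snoc hx.1 hx.2) (by rw [List.length_append, List.length_singleton]; omega)
    · intro x _ y _ hxy
      rw [Function.onFun, Finset.disjoint_left]
      intro L hx hy
      rw [Finset.mem_filter] at hx hy
      obtain ⟨T, rfl⟩ := hx.2
      obtain ⟨T', h⟩ := hy.2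
      rw [List.append_assoc, List.append_assoc, List.append_cancel_left_eq] at h
      simp at h
      exact hxy h.1.symm

lemma extSum_nil {N n : ℕ} (f : List ℕ → ℝ) :
    extSum N f n [] = ∑ S ∈ (Icc 1 N).powersetCard n, ∑ L ∈ orders S, f L := by
  rw [extSum_eq (n := n) f n [] ⟨List.nodup_nil, by simp⟩ (by simp), ← sum_LL]
  congr 1
  ext L
  simp

/-- the weight of a set -/
noncomputable def wt (n : ℕ) (S : Finset ℕ) : ℝ := 1 / ((S.sup id).choose n : ℝ)

lemma wt_nonneg (n : ℕ) (S : Finset ℕ) : 0 ≤ wt n S := by unfold wt; positivity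

lemma mx_eq_sup (L : List ℕ) : mx L = L.toFinset.sup id := by
  induction L with
  | nil => simp [mx]
  | cons a L ih =>
    rw [List.toFinset_cons, Finset.sup_insert, ← ih]
    rfl

lemma wt_div {n : ℕ} {S : Finset ℕ} {L : List ℕ} (h : L ∈ orders S) :
    wt n S / n.factorial = om n L := by
  rw [mem_orders] at h
  unfold wt om g
  rw [mx_eq_sup, h.2, Nat.descFactorial_eq_factorial_mul_choose]
  push_cast
  rw [div_div, mul_comm]

lemma Z_eq {n : ℕ} (hn : 1 ≤ n) (N : ℕ) :
    ∑ S ∈ (Icc 1 N).powersetCard n, wt n S = n * ∑ x ∈ Icc n N, (1 : ℝ) / x := by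
  induction N with
  | zero =>
    have h1 : (Icc 1 0).powersetCard n = ∅ := by
      apply Finset.powersetCard_eq_empty.2
      rw [Nat.card_Icc]
      omega
    have h2 : Icc n 0 = ∅ := by
      apply Finset.Icc_eq_empty
      omega
    rw [h1, h2]
    simp
  | succ N ih =>
    obtain ⟨k, rfl⟩ : ∃ k, n = k + 1 := ⟨n - 1, by omega⟩
    have e1 : Icc 1 (N + 1) = insert (N + 1) (Icc 1 N) := by
      ext x
      simp only [Finset.mem_Icc, Finset.mem_insert]
      omega
    have hni : N + 1 ∉ Icc 1 N := by simp
    rw [e1, Finset.powersetCard_succ_insert hni, Finset.sum_union, ih]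
    · rw [Finset.sum_image]
      · have h1 : ∀ S ∈ (Icc 1 N).powersetCard k,
            wt (k + 1) (insert (N + 1) S) = 1 / ((N + 1).choose (k + 1) : ℝ) := by
          intro S hS
          rw [Finset.mem_powersetCard] at hS
          unfold wt
          congr 3
          rw [Finset.sup_insert]
          apply max_eq_left
          apply Finset.sup_le
          intro x hx
          have := hS.1 hx
          rw [Finset.mem_Icc] at this
          exact (by omega : x ≤ N + 1)
        rw [Finset.sum_congr rfl h1, Finset.sum_const, Finset.card_powersetCard, Nat.card_Icc,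
          Nat.add_sub_cancel, nsmul_eq_mul]
        by_cases hk : k + 1 ≤ N + 1
        · rw [← Finset.insert_Icc_right_eq_Icc_add_one hk] <;> try rfl
          rw [Finset.sum_insert (by simp), mul_add, add_comm]
          congr 1
          have h2 : 0 < (N + 1).choose (k + 1) := Nat.choose_pos hk
          have h3 : ((N + 1 : ℕ) : ℝ) * (N.choose k : ℝ) =
              ((N + 1).choose (k + 1) : ℝ) * ((k + 1 : ℕ) : ℝ) := by
            exact_mod_cast Nat.add_one_mul_choose_eq N k
          have h4 : ((N + 1).choose (k + 1) : ℝ) ≠ 0 := by positivity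
          have h5 : ((N + 1 : ℕ) : ℝ) ≠ 0 := by positivity
          field_simp
          linarith
        · have h2 : Icc (k + 1) (N + 1) = ∅ := Finset.Icc_eq_empty (by omega)
          have h3 : Icc (k + 1) N = ∅ := Finset.Icc_eq_empty (by omega)
          rw [h2, h3, Nat.choose_eq_zero_of_lt (by omega : N < k)]
          simp
      · intro S hS T hT hST
        rw [Finset.mem_coe, Finset.mem_powersetCard] at hS hT
        have h1 : N + 1 ∉ S := fun h => hni (hS.1 h)
        have h2 : N + 1 ∉ T := fun h => hni (hT.1 h)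
        rw [← Finset.erase_insert h1, ← Finset.erase_insert h2, hST]
    · rw [Finset.disjoint_left]
      intro S hS hS'
      rw [Finset.mem_powersetCard] at hS
      rw [Finset.mem_image] at hS'
      obtain ⟨T, _, rfl⟩ := hS'
      exact hni (hS.1 (Finset.mem_insert_self _ _))

lemma H_pos {n N : ℕ} (hn : 1 ≤ n) (hN : n ≤ N) : 0 < ∑ x ∈ Icc n N, (1 : ℝ) / x := by
  apply Finset.sum_pos
  · intro x hx
    rw [Finset.mem_Icc] at hx
    have : (0 : ℝ) < x := by
      have : 0 < x := by omega
      exact_mod_cast this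
    positivity
  · exact ⟨n, Finset.mem_Icc.2 ⟨le_rfl, hN⟩⟩

/-- The instance: the probability of `S` is proportional to `1 / (max S choose n)`. -/
noncomputable def inst {n N : ℕ} (hn : 1 ≤ n) (hN : n ≤ N) : Instance n N where
  prob S := wt n S / (n * ∑ x ∈ Icc n N, (1 : ℝ) / x)
  nonneg S := by
    have := H_pos hn hN
    have := wt_nonneg n S
    positivity
  sum_eq_one := by
    rw [← Finset.sum_div, Z_eq hn]
    apply div_self
    have h1 := H_pos hn hN
    have h2 : (0 : ℝ) < n := by exact_mod_cast hn
    positivity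

lemma det_le {n N : ℕ} (hn : 1 ≤ n) (hN : n ≤ N) (r : List ℕ → Bool) :
    detWinProb (inst hn hN) r ≤
      1 / Real.exp 1 + 1 / n + 1 / ∑ x ∈ Icc n N, (1 : ℝ) / x := by
  classical
  have h1 := H_pos hn hN
  have h2 : (0 : ℝ) < n := by exact_mod_cast hn
  have e : detWinProb (inst hn hN) r =
      extSum N (W n r) n [] / (n * ∑ x ∈ Icc n N, (1 : ℝ) / x) := by
    rw [extSum_nil, Finset.sum_div]
    unfold detWinProb inst
    apply Finset.sum_congr rfl
    intro S _
    simp only
    have e1 : ∑ L ∈ orders S, W n r L =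
        (((orders S).filter (Wins r)).card : ℝ) * (wt n S / n.factorial) := by
      rw [← nsmul_eq_mul, ← Finset.sum_const, Finset.sum_filter]
      apply Finset.sum_congr rfl
      intro L hL
      unfold W
      rw [wt_div hL]
    rw [e1]
    have h3 : (0 : ℝ) < n.factorial := by exact_mod_cast Nat.factorial_pos n
    have e2 : (((orders S).filter (Wins r)).card : ℝ) =
      ((@Finset.filter (List ℕ) (Wins r) (fun a => Classical.propDecidable _) (orders S)).card :
        ℝ) := by
      congr
    rw [e2]
    field_simp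
  rw [e, div_le_iff₀ (by positivity)]
  refine (top_bound hn hN r).trans ?_
  have e3 : (1 / Real.exp 1 + 1 / (n : ℝ) + 1 / ∑ x ∈ Icc n N, (1 : ℝ) / x) *
      (n * ∑ x ∈ Icc n N, (1 : ℝ) / x) =
      n + (∑ x ∈ Icc n N, (1 : ℝ) / x) * (n * (1 / Real.exp 1 + 1 / n)) := by
    have h4 : (∑ x ∈ Icc n N, (1 : ℝ) / x) ≠ 0 := h1.ne'
    set H := ∑ x ∈ Icc n N, (1 : ℝ) / x
    field_simp
    ring
  rw [e3]
  linarith

lemma win_le {n N : ℕ} (hn : 1 ≤ n) (hN : n ≤ N) (A : Algorithm) :
    winProb (inst hn hN) A ≤
      1 / Real.exp 1 + 1 / n + 1 / ∑ x ∈ Icc n N, (1 : ℝ) / x := by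
  unfold winProb
  have h : ∫ ω, detWinProb (inst hn hN) (A.rule ω) ∂A.μ ≤
      ∫ _, (1 / Real.exp 1 + 1 / n + 1 / ∑ x ∈ Icc n N, (1 : ℝ) / x) ∂A.μ := by
    apply MeasureTheory.integral_mono_of_nonneg
    · refine Filter.Eventually.of_forall fun ω => ?_
      change 0 ≤ detWinProb (inst hn hN) (A.rule ω)
      unfold detWinProb
      apply Finset.sum_nonneg
      intro S _
      have := (inst hn hN).nonneg S
      positivity
    · exact MeasureTheory.integrable_const _
    · exact Filter.Eventually.of_forall fun ω => det_le hn hN (A.rule ω)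
  refine h.trans (le_of_eq ?_)
  simp

/-- the harmonic sum from `n` to `n ^ 2` is at least `log n` -/
lemma log_le_H {n : ℕ} (hn : 1 ≤ n) : Real.log n ≤ ∑ x ∈ Icc n (n ^ 2), (1 : ℝ) / x := by
  have key : ∀ N, n ≤ N + 1 → Real.log (((N : ℝ) + 1) / n) ≤ ∑ x ∈ Icc n N, (1 : ℝ) / x := by
    intro N
    induction N with
    | zero =>
      intro h
      have : n = 1 := by omega
      subst this
      simp
    | succ N ih =>
      intro h
      have hn' : (0 : ℝ) < n := by exact_mod_cast hn
      rcases (show n ≤ N + 1 + 1 from h).eq_or_lt with h1 | h1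
      · have e : ((N + 1 : ℕ) : ℝ) + 1 = n := by rw [h1]; push_cast; ring
        rw [e, div_self hn'.ne', Real.log_one]
        positivity
      · have e2 : Icc n (N + 1) = insert (N + 1) (Icc n N) := by
          ext x
          simp only [Finset.mem_Icc, Finset.mem_insert]
          omega
        rw [e2, Finset.sum_insert (by simp)]
        have h3 := ih (by omega)
        have hN : (0 : ℝ) < (N : ℝ) + 1 := by positivity
        have h4 : Real.log ((((N + 1 : ℕ) : ℝ) + 1) / n) =
            Real.log (((N : ℝ) + 1) / n) + Real.log ((((N + 1 : ℕ) : ℝ) + 1) / ((N : ℝ) + 1)) := by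
          rw [← Real.log_mul (by positivity) (by positivity)]
          congr 1
          field_simp
        have h5 : Real.log ((((N + 1 : ℕ) : ℝ) + 1) / ((N : ℝ) + 1)) ≤ 1 / ((N + 1 : ℕ) : ℝ) := by
          refine (Real.log_le_sub_one_of_pos (by positivity)).trans (le_of_eq ?_)
          push_cast
          field_simp
          ring
        rw [h4]
        linarith
  have hn' : (0 : ℝ) < n := by exact_mod_cast hn
  refine le_trans ?_ (key (n ^ 2) (by nlinarith))
  apply Real.log_le_log hn'
  rw [le_div_iff₀ hn']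
  push_cast
  nlinarith

/-- The bound for `N = n ^ 2`. -/
lemma win_le_sq {n : ℕ} (hn : 2 ≤ n) :
    ∃ D : Instance n (n ^ 2), ∀ A : Algorithm,
      winProb D A ≤ 1 / Real.exp 1 + 1 / n + 1 / Real.log n := by
  refine ⟨inst (by omega) (by nlinarith), fun A => (win_le _ _ A).trans ?_⟩
  have h1 := log_le_H (n := n) (by omega)
  have h2 : 0 < Real.log n := Real.log_pos (by exact_mod_cast hn)
  have h3 := one_div_le_one_div_of_le h2 h1
  linarith

end Pool.Agent.Q218.Googol
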