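import Mathlib

/-!
# The game of googol with finitely many values: definitions
-/

set_option autoImplicit false

namespace Pool.Agent.Q218.Googol

open MeasureTheory

/-- An instance: a probability distribution on the `n`-element subsets of `{1, …, N}`. -/
structure Instance (n N : ℕ) where
  /-- the probability of the set `S` -/
  prob : Finset ℕ → ℝ
  nonneg : ∀ S, 0 ≤ prob S
  sum_eq_one : ∑ S ∈ (Finset.Icc 1 N).powersetCard n, prob S = 1

/-- The orders in which the elements of `S` can be presented. -/
noncomputable def orders (S : Finset ℕ) : Finset (List ℕ) :=
  S.toList.permutations.toFinset

/-- The stopping rule `r` (it is told the list of the values presented so far, in the order of their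
arrival, and says whether to stop on the last one) wins when the values arrive in the order `L`: the
element `L[k]` on which it stops is the largest one. -/
def Wins (r : List ℕ → Bool) (L : List ℕ) : Prop :=
  ∃ (k : ℕ) (hk : k < L.length), r (L.take (k + 1)) = true ∧
    (∀ j < k, r (L.take (j + 1)) = false) ∧ ∀ x ∈ L, x ≤ L[k]

open Classical in
/-- The probability that the stopping rule `r` wins under the instance `D`; the elements of the
random set arrive in a uniformly random order. -/
noncomputable def detWinProb {n N : ℕ} (D : Instance n N) (r : List ℕ → Bool) : ℝ :=
  ∑ S ∈ (Finset.Icc 1 N).powersetCard n,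
    D.prob S * ((((orders S).filter (Wins r)).card : ℝ) / n.factorial)

/-- A randomized online algorithm: a random stopping rule. -/
structure Algorithm where
  /-- the internal randomness -/
  Ω : Type
  [mΩ : MeasurableSpace Ω]
  /-- the distribution of the internal randomness -/
  μ : Measure Ω
  [isProb : IsProbabilityMeasure μ]
  /-- the stopping rule -/
  rule : Ω → List ℕ → Bool
  measurable_rule : ∀ h, Measurable fun ω => rule ω h

attribute [instance] Algorithm.mΩ Algorithm.isProb

/-- The probability that the randomized online algorithm `A` wins under the instance `D`. -/
noncomputable def winProb {n N : ℕ} (D : Instance n N) (A : Algorithm) : ℝ :=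
  ∫ ω, detWinProb D (A.rule ω) ∂A.μ

end Pool.Agent.Q218.Googol
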