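import Pool.Agent.Q218.Googol.Value

set_option autoImplicit false

/-! # Weighted sums over the extensions of a list -/

namespace Pool.Agent.Q218.Googol

open Finset

/-- `1 / (m (m-1) … (m-t+1))` -/
noncomputable def g (m t : ℕ) : ℝ := 1 / (m.descFactorial t : ℝ)

lemma g_nonneg (m t : ℕ) : 0 ≤ g m t := by unfold g; positivity

lemma g_pos {m t : ℕ} (h : t ≤ m) : 0 < g m t := by
  unfold g
  have : 0 < m.descFactorial t := Nat.pos_of_ne_zero (by
    rw [Ne, Nat.descFactorial_eq_zero_iff_lt]; omega)
  positivity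

lemma g_step (m t : ℕ) (h : t ≤ m) : ((m - t : ℕ) : ℝ) * g m (t + 1) ≤ g m t := by
  rcases h.eq_or_lt with rfl | h
  · simp [g_nonneg]
  · unfold g
    rw [Nat.descFactorial_succ]
    have h1 : (0 : ℝ) < ((m - t : ℕ) : ℝ) := by exact_mod_cast (by omega : 0 < m - t)
    have h2 : (0 : ℝ) < (m.descFactorial t : ℝ) := by
      have : 0 < m.descFactorial t := Nat.pos_of_ne_zero (by
        rw [Ne, Nat.descFactorial_eq_zero_iff_lt]; omega)
      exact_mod_cast this
    apply le_of_eq
    push_cast
    field_simp

lemma g_diff (x t : ℕ) (h : t ≤ x) : (t : ℝ) * g (x + 1) (t + 1) = g x t - g (x + 1) t := by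
  unfold g
  have h2 : (0 : ℝ) < (x.descFactorial t : ℝ) := by
    have : 0 < x.descFactorial t := Nat.pos_of_ne_zero (by
      rw [Ne, Nat.descFactorial_eq_zero_iff_lt]; omega)
    exact_mod_cast this
  have h3 : (0 : ℝ) < ((x + 1).descFactorial t : ℝ) := by
    have : 0 < (x + 1).descFactorial t := Nat.pos_of_ne_zero (by
      rw [Ne, Nat.descFactorial_eq_zero_iff_lt]; omega)
    exact_mod_cast this
  have e1 : ((x + 1).descFactorial (t + 1) : ℝ) = (x + 1) * x.descFactorial t := by
    rw [Nat.succ_descFactorial_succ]; push_cast; ring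
  have e2 : ((x + 1).descFactorial (t + 1) : ℝ) = ((x : ℝ) + 1 - t) * (x + 1).descFactorial t := by
    rw [Nat.descFactorial_succ, Nat.cast_mul, Nat.cast_sub (by omega)]; push_cast; ring
  have h4 : (0 : ℝ) < (x : ℝ) + 1 - t := by
    have : (t : ℝ) ≤ x := by exact_mod_cast h
    linarith
  have h5 : (0 : ℝ) < ((x + 1).descFactorial (t + 1) : ℝ) := by rw [e2]; positivity
  have f1 : 1 / (x.descFactorial t : ℝ) = (x + 1) / ((x + 1).descFactorial (t + 1) : ℝ) := by
    rw [e1]; field_simp
  have f2 : 1 / ((x + 1).descFactorial t : ℝ) =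
      ((x : ℝ) + 1 - t) / ((x + 1).descFactorial (t + 1) : ℝ) := by
    rw [e2]; field_simp
  rw [f1, f2]
  field_simp
  ring

lemma g_sum {m t : ℕ} (ht : 1 ≤ t) (h : t ≤ m) (N : ℕ) :
    ∑ x ∈ Ioc m N, g x (t + 1) ≤ g m t / t := by
  have ht' : (0 : ℝ) < t := by exact_mod_cast ht
  have key : ∀ N, m ≤ N → (t : ℝ) * ∑ x ∈ Ioc m N, g x (t + 1) = g m t - g N t := by
    intro N hN
    induction N, hN using Nat.le_induction with
    | base => simp
    | succ N hN ih =>
      rw [Finset.sum_Ioc_succ_top (by omega), mul_add, ih, g_diff N t (by omega)]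
      ring
  rw [le_div_iff₀ ht']
  rcases le_total m N with hN | hN
  · have := key N hN
    have := g_nonneg N t
    linarith
  · rw [Finset.Ioc_eq_empty (by omega)]
    simp [g_nonneg]

/-- the largest entry of a list -/
def mx (P : List ℕ) : ℕ := P.foldr max 0

lemma mx_append (P : List ℕ) (x : ℕ) : mx (P ++ [x]) = max (mx P) x := by
  induction P with
  | nil => simp [mx]
  | cons a P ih =>
    simp only [mx, List.cons_append, List.foldr_cons] at ih ⊢
    rw [ih, max_assoc]

lemma le_mx {P : List ℕ} {y : ℕ} (h : y ∈ P) : y ≤ mx P := by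
  induction P with
  | nil => simp at h
  | cons a P ih =>
    rcases List.mem_cons.1 h with rfl | h
    · exact le_max_left _ _
    · exact (ih h).trans (le_max_right _ _)

lemma mx_mem {P : List ℕ} (h : P ≠ []) : mx P ∈ P := by
  induction P with
  | nil => exact absurd rfl h
  | cons a P ih =>
    by_cases hP : P = []
    · subst hP; simp [mx]
    · have h1 : mx (a :: P) = max a (mx P) := rfl
      rw [h1]
      rcases max_choice a (mx P) with h2 | h2
      · rw [h2]; simp
      · rw [h2]; exact List.mem_cons_of_mem _ (ih hP)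

/-- a list of distinct numbers from `{1, …, N}` -/
def Valid (N : ℕ) (P : List ℕ) : Prop := P.Nodup ∧ ∀ x ∈ P, x ∈ Icc 1 N

lemma Valid.snoc {N : ℕ} {P : List ℕ} (h : Valid N P) {x : ℕ} (hx : x ∈ Icc 1 N) (hx' : x ∉ P) :
    Valid N (P ++ [x]) := by
  refine ⟨?_, ?_⟩
  · rw [List.nodup_append]
    refine ⟨h.1, List.nodup_singleton _, ?_⟩
    intro a ha b hb
    rw [List.mem_singleton] at hb
    subst hb
    rintro rfl
    exact hx' ha
  · intro y hy
    rcases List.mem_append.1 hy with hy | hy
    · exact h.2 y hy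
    · rw [List.mem_singleton] at hy
      subst hy
      exact hx

/-- the sum of `f` over the extensions of `P` by `k` further distinct numbers of `{1, …, N}` -/
noncomputable def extSum (N : ℕ) (f : List ℕ → ℝ) : ℕ → List ℕ → ℝ
  | 0, P => f P
  | k + 1, P => ∑ x ∈ (Icc 1 N).filter (· ∉ P), extSum N f k (P ++ [x])

lemma extSum_le {N n : ℕ} {f Φ : List ℕ → ℝ} {I : List ℕ → Prop}
    (hI : ∀ P x, I P → I (P ++ [x]))
    (hbase : ∀ L, I L → Valid N L → L.length = n → f L ≤ Φ L)
    (hstep : ∀ P, I P → Valid N P → P.length < n →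
      ∑ x ∈ (Icc 1 N).filter (· ∉ P), Φ (P ++ [x]) ≤ Φ P) :
    ∀ k P, I P → Valid N P → P.length + k = n → extSum N f k P ≤ Φ P := by
  intro k
  induction k with
  | zero => intro P h1 h2 h3; exact hbase P h1 h2 (by omega)
  | succ k ih =>
    intro P h1 h2 h3
    refine le_trans (Finset.sum_le_sum ?_) (hstep P h1 h2 (by omega))
    intro x hx
    rw [Finset.mem_filter] at hx
    apply ih _ (hI _ _ h1) (h2.snoc hx.1 hx.2)
    rw [List.length_append, List.length_singleton]
    omega

lemma extSum_mono {N : ℕ} {f f' : List ℕ → ℝ} : ∀ k P,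
    (∀ L, P <+: L → f L ≤ f' L) → extSum N f k P ≤ extSum N f' k P := by
  intro k
  induction k with
  | zero => intro P h; exact h P (List.prefix_refl P)
  | succ k ih =>
    intro P h
    refine Finset.sum_le_sum fun x _ => ih _ fun L hL => h L ?_
    exact (List.prefix_append P [x]).trans hL

lemma Valid.mx_le {N : ℕ} {P : List ℕ} (h : Valid N P) : mx P ≤ N := by
  by_cases hP : P = []
  · subst hP; simp [mx]
  · exact (Finset.mem_Icc.1 (h.2 _ (mx_mem hP))).2

lemma Valid.length_le {N m : ℕ} {P : List ℕ} (h : Valid N P) (hm : ∀ y ∈ P, y ≤ m) :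
    P.length ≤ m := by
  have h1 : P.toFinset ⊆ Icc 1 m := by
    intro y hy
    rw [List.mem_toFinset] at hy
    rw [Finset.mem_Icc]
    exact ⟨(Finset.mem_Icc.1 (h.2 y hy)).1, hm y hy⟩
  have := Finset.card_le_card h1
  rw [List.toFinset_card_of_nodup h.1] at this
  simpa using this

/-- splitting the sum over the next value -/
lemma sum_split {N m : ℕ} {P : List ℕ} (h : Valid N P) (hm : ∀ y ∈ P, y ≤ m) (hmN : m ≤ N)
    (F : ℕ → ℝ) (a : ℝ) (ha : ∀ x ∈ Icc 1 m, x ∉ P → F x = a) :
    ∑ x ∈ (Icc 1 N).filter (· ∉ P), F x =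
      ((m - P.length : ℕ) : ℝ) * a + ∑ x ∈ Ioc m N, F x := by
  have e : (Icc 1 N).filter (· ∉ P) = (Icc 1 m \ P.toFinset) ∪ Ioc m N := by
    ext x
    simp only [Finset.mem_filter, Finset.mem_Icc, Finset.mem_union, Finset.mem_sdiff,
      List.mem_toFinset, Finset.mem_Ioc]
    constructor
    · rintro ⟨⟨h1, h2⟩, h3⟩
      by_cases hx : x ≤ m
      · exact Or.inl ⟨⟨h1, hx⟩, h3⟩
      · exact Or.inr ⟨by omega, h2⟩
    · rintro (⟨⟨h1, h2⟩, h3⟩ | ⟨h1, h2⟩)
      · exact ⟨⟨h1, by omega⟩, h3⟩
      · refine ⟨⟨by omega, h2⟩, fun h3 => ?_⟩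
        have := hm x h3
        omega
  have hd : Disjoint (Icc 1 m \ P.toFinset) (Ioc m N) := by
    rw [Finset.disjoint_left]
    intro x hx hx'
    simp only [Finset.mem_Icc, Finset.mem_sdiff, Finset.mem_Ioc] at hx hx'
    omega
  rw [e, Finset.sum_union hd]
  congr 1
  have h1 : P.toFinset ⊆ Icc 1 m := by
    intro y hy
    rw [List.mem_toFinset] at hy
    rw [Finset.mem_Icc]
    exact ⟨(Finset.mem_Icc.1 (h.2 y hy)).1, hm y hy⟩
  have hc : (Icc 1 m \ P.toFinset).card = m - P.length := by
    rw [Finset.card_sdiff_of_subset h1, List.toFinset_card_of_nodup h.1]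
    simp
  rw [← hc, ← nsmul_eq_mul, ← Finset.sum_const]
  apply Finset.sum_congr rfl
  intro x hx
  rw [Finset.mem_sdiff, List.mem_toFinset] at hx
  exact ha x hx.1 hx.2

/-- the weight of a full list -/
noncomputable def om (n : ℕ) (L : List ℕ) : ℝ := g (mx L) n

lemma om_nonneg (n : ℕ) (L : List ℕ) : 0 ≤ om n L := g_nonneg _ _

open Classical in
/-- The weight of the extensions that keep the current maximum. -/
lemma E_bound {N n m : ℕ} : ∀ k P, m ∈ P → Valid N P → P.length + k = n → mx P = m →
    extSum N (fun L => if ∀ y ∈ L, y ≤ m then om n L else 0) k P ≤ g m P.length := by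
  intro k P h1 h2 h3 h4
  have := extSum_le (N := N) (n := n) (f := fun L => if ∀ y ∈ L, y ≤ m then om n L else 0)
    (Φ := fun L => if ∀ y ∈ L, y ≤ m then g m L.length else 0) (I := fun L => m ∈ L)
    ?_ ?_ ?_ k P h1 h2 h3
  · refine this.trans ?_
    have h5 : ∀ y ∈ P, y ≤ m := fun y hy => h4 ▸ le_mx hy
    rw [if_pos h5]
  · intro P x hP
    exact List.mem_append_left _ hP
  · intro L hL hV hl
    split_ifs with h
    · have : mx L = m := by
        apply le_antisymm
        · exact h _ (mx_mem (List.ne_nil_of_mem hL))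
        · exact le_mx hL
      unfold om
      rw [this, hl]
    · exact le_rfl
  · intro P hP hV hl
    by_cases h : ∀ y ∈ P, y ≤ m
    · have hmN : m ≤ N := (Finset.mem_Icc.1 (hV.2 m hP)).2
      rw [if_pos h, sum_split hV h hmN _ (g m (P.length + 1))]
      · have : ∑ x ∈ Ioc m N, (if ∀ y ∈ P ++ [x], y ≤ m then g m (P ++ [x]).length else 0) = 0 := by
          apply Finset.sum_eq_zero
          intro x hx
          rw [Finset.mem_Ioc] at hx
          rw [if_neg]
          intro h'
          have := h' x (by simp)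
          omega
        rw [this, add_zero]
        exact g_step m _ (hV.length_le h)
      · intro x hx _
        rw [Finset.mem_Icc] at hx
        rw [if_pos]
        · simp
        · intro y hy
          rcases List.mem_append.1 hy with hy | hy
          · exact h y hy
          · rw [List.mem_singleton] at hy; subst hy; exact hx.2
    · rw [if_neg h]
      apply le_of_eq
      apply Finset.sum_eq_zero
      intro x _
      rw [if_neg]
      intro h'
      exact h fun y hy => h' y (List.mem_append_left _ hy)

/-- The total weight of the extensions. -/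
lemma T_bound {N n : ℕ} (hN : n ≤ N) : ∀ k P, P ≠ [] → Valid N P → P.length + k = n →
    extSum N (om n) k P ≤ if n ≤ mx P then (n : ℝ) / P.length * g (mx P) P.length else
      ((n : ℝ) - P.length) / P.length * g (n - 1) P.length := by
  apply extSum_le (N := N) (n := n) (f := om n)
    (Φ := fun P => if n ≤ mx P then (n : ℝ) / P.length * g (mx P) P.length else
      ((n : ℝ) - P.length) / P.length * g (n - 1) P.length) (I := fun L => L ≠ [])
  · intro P x _
    simp
  · intro L hL hV hl
    have h1 : n ≤ mx L := by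
      have := hV.length_le (fun y hy => le_mx hy)
      omega
    have hn : 0 < n := by
      rw [← hl]; exact List.length_pos_iff.2 hL
    have hn' : (n : ℝ) ≠ 0 := by positivity
    rw [if_pos h1, hl, div_self hn', one_mul]
    exact le_rfl
  · intro P hP hV hl
    simp only [List.length_append, List.length_singleton, mx_append]
    have ht : 1 ≤ P.length := List.length_pos_iff.2 hP
    have ht' : (1 : ℝ) ≤ P.length := by exact_mod_cast ht
    have hln : (P.length : ℝ) + 1 ≤ n := by exact_mod_cast hl
    by_cases h : n ≤ mx P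
    · rw [if_pos h, sum_split hV (fun y hy => le_mx hy) hV.mx_le _
        ((n : ℝ) / (P.length + 1 : ℕ) * g (mx P) (P.length + 1))]
      · have e1 : ∑ x ∈ Ioc (mx P) N, (if n ≤ max (mx P) x then
            (n : ℝ) / (P.length + 1 : ℕ) * g (max (mx P) x) (P.length + 1) else
            ((n : ℝ) - (P.length + 1 : ℕ)) / (P.length + 1 : ℕ) * g (n - 1) (P.length + 1)) =
            (n : ℝ) / (P.length + 1 : ℕ) * ∑ x ∈ Ioc (mx P) N, g x (P.length + 1) := by
          rw [Finset.mul_sum]
          apply Finset.sum_congr rfl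
          intro x hx
          rw [Finset.mem_Ioc] at hx
          rw [max_eq_right (by omega), if_pos (by omega)]
        rw [e1]
        have hle : P.length ≤ mx P := hV.length_le (fun y hy => le_mx hy)
        have h1 := g_sum ht hle N
        have h2 := g_step (mx P) P.length hle
        have h3 : (0 : ℝ) ≤ (n : ℝ) / (P.length + 1 : ℕ) := by positivity
        have h4 := mul_le_mul_of_nonneg_left h1 h3
        have h5 := mul_le_mul_of_nonneg_left h2 h3
        have e2 : (n : ℝ) / (P.length + 1 : ℕ) * g (mx P) P.length +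
            (n : ℝ) / (P.length + 1 : ℕ) * (g (mx P) P.length / P.length) =
            (n : ℝ) / P.length * g (mx P) P.length := by
          push_cast
          field_simp
        linarith
      · intro x hx _
        rw [Finset.mem_Icc] at hx
        rw [max_eq_left hx.2, if_pos h]
    · rw [if_neg h]
      have hmn : ∀ y ∈ P, y ≤ n - 1 := fun y hy => by
        have := le_mx hy
        omega
      rw [sum_split hV hmn (by omega) _
        (((n : ℝ) - (P.length + 1 : ℕ)) / (P.length + 1 : ℕ) * g (n - 1) (P.length + 1))]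
      · have e1 : ∑ x ∈ Ioc (n - 1) N, (if n ≤ max (mx P) x then
            (n : ℝ) / (P.length + 1 : ℕ) * g (max (mx P) x) (P.length + 1) else
            ((n : ℝ) - (P.length + 1 : ℕ)) / (P.length + 1 : ℕ) * g (n - 1) (P.length + 1)) =
            (n : ℝ) / (P.length + 1 : ℕ) * ∑ x ∈ Ioc (n - 1) N, g x (P.length + 1) := by
          rw [Finset.mul_sum]
          apply Finset.sum_congr rfl
          intro x hx
          rw [Finset.mem_Ioc] at hx
          rw [max_eq_right (by omega), if_pos (by omega)]
        rw [e1]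
        have hle : P.length ≤ n - 1 := by omega
        have h1 := g_sum ht hle N
        have h2 := g_step (n - 1) P.length hle
        have h3 : (0 : ℝ) ≤ (n : ℝ) / (P.length + 1 : ℕ) := by positivity
        have h3' : (0 : ℝ) ≤ ((n : ℝ) - (P.length + 1 : ℕ)) / (P.length + 1 : ℕ) := by
          apply div_nonneg
          · push_cast; linarith
          · positivity
        have h4 := mul_le_mul_of_nonneg_left h1 h3
        have h5 := mul_le_mul_of_nonneg_left h2 h3'
        have e2 : ((n : ℝ) - (P.length + 1 : ℕ)) / (P.length + 1 : ℕ) * g (n - 1) P.length +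
            (n : ℝ) / (P.length + 1 : ℕ) * (g (n - 1) P.length / P.length) =
            ((n : ℝ) - P.length) / P.length * g (n - 1) P.length := by
          push_cast
          field_simp
          ring
        linarith
      · intro x hx _
        rw [Finset.mem_Icc] at hx
        rw [if_neg]
        intro h'
        rcases le_max_iff.1 h' with h' | h' <;> omega

end Pool.Agent.Q218.Googol
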