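import Pool.Agent.Q218.Googol.Ext

set_option autoImplicit false

/-! # The weight that a stopping rule can collect -/

namespace Pool.Agent.Q218.Googol

open Finset

open Classical in
/-- the weight of a list on which the rule wins -/
noncomputable def W (n : ℕ) (r : List ℕ → Bool) (L : List ℕ) : ℝ :=
  if Wins r L then om n L else 0

/-- the rule has not stopped within `P` -/
def Quiet (r : List ℕ → Bool) (P : List ℕ) : Prop :=
  ∀ j < P.length, r (P.take (j + 1)) = false

lemma take_of_prefix {P L : List ℕ} (h : P <+: L) {j : ℕ} (hj : j ≤ P.length) :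
    L.take j = P.take j := by
  obtain ⟨t, rfl⟩ := h
  rw [List.take_append_of_le_length hj]

lemma wins_stop {r : List ℕ → Bool} {P L : List ℕ} {x : ℕ} (h : (P ++ [x]) <+: L)
    (hq : Quiet r P) (hs : r (P ++ [x]) = true) (hw : Wins r L) : ∀ y ∈ L, y ≤ x := by
  obtain ⟨k, hk, h1, h2, h3⟩ := hw
  have hP : P <+: L := (List.prefix_append P [x]).trans h
  have hkP : k = P.length := by
    rcases lt_trichotomy k P.length with h4 | h4 | h4
    · have := hq k h4
      rw [take_of_prefix hP (by omega), this] at h1
      exact absurd h1 (by simp)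
    · exact h4
    · have := h2 P.length h4
      rw [take_of_prefix h (by simp)] at this
      have e : (P ++ [x]).take (P.length + 1) = P ++ [x] := by
        apply List.take_of_length_le
        simp
      rw [e, hs] at this
      exact absurd this (by simp)
  have hx : L[k] = x := by
    obtain ⟨t, rfl⟩ := h
    subst hkP
    rw [List.getElem_append_left (by simp)]
    simp
  intro y hy
  rw [← hx]
  exact h3 y hy

lemma quiet_snoc {r : List ℕ → Bool} {P : List ℕ} {x : ℕ} (hq : Quiet r P)
    (hs : r (P ++ [x]) = false) : Quiet r (P ++ [x]) := by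
  intro j hj
  rw [List.length_append, List.length_singleton] at hj
  rcases (Nat.lt_succ_iff.1 hj).lt_or_eq with h | h
  · rw [List.take_append_of_le_length (by omega)]
    exact hq j h
  · have e : (P ++ [x]).take (j + 1) = P ++ [x] := by
      apply List.take_of_length_le
      simp [h]
    rw [e, hs]

lemma extSum_zero {N : ℕ} {f : List ℕ → ℝ} {k : ℕ} {P : List ℕ}
    (h : ∀ L, P <+: L → f L ≤ 0) : extSum N f k P ≤ 0 := by
  have h1 := extSum_mono (N := N) (f := f) (f' := fun _ => 0) k P h
  have h2 : ∀ k P, extSum N (fun _ => 0) k P = 0 := by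
    intro k
    induction k with
    | zero => intro P; rfl
    | succ k ih =>
      intro P
      exact Finset.sum_eq_zero fun x _ => ih _
  rw [h2] at h1
  exact h1

/-- one step of the recursion -/
lemma F_next {N n k : ℕ} {r : List ℕ → Bool}
    (ih : ∀ P, P ≠ [] → Valid N P → P.length + k = n → Quiet r P →
      extSum N (W n r) k P ≤ V n k * ((n : ℝ) / P.length * g (mx P) P.length))
    {P : List ℕ} (hV : Valid N P) (hl : P.length + (k + 1) = n) (hq : Quiet r P)
    {x : ℕ} (hx : x ∈ Icc 1 N) (hxP : x ∉ P) :
    extSum N (W n r) k (P ++ [x]) ≤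
      if x ≤ mx P then V n k * ((n : ℝ) / (P.length + 1 : ℕ) * g (mx P) (P.length + 1)) else
        g x (P.length + 1) * max 1 (V n k * ((n : ℝ) / (P.length + 1 : ℕ))) := by
  have hV' := hV.snoc hx hxP
  have hl' : (P ++ [x]).length + k = n := by
    rw [List.length_append, List.length_singleton]; omega
  have hVn := V_nonneg n k (by omega)
  rcases hs : r (P ++ [x]) with _ | _
  · have h1 := ih _ (by simp) hV' hl' (quiet_snoc hq hs)
    simp only [List.length_append, List.length_singleton, mx_append] at h1
    split_ifs with h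
    · rw [max_eq_left h] at h1
      exact h1
    · rw [max_eq_right (by omega)] at h1
      refine h1.trans ?_
      calc V n k * ((n : ℝ) / (P.length + 1 : ℕ) * g x (P.length + 1)) =
          g x (P.length + 1) * (V n k * ((n : ℝ) / (P.length + 1 : ℕ))) := by ring
        _ ≤ _ := mul_le_mul_of_nonneg_left (le_max_right _ _) (g_nonneg _ _)
  · split_ifs with h
    · have h1 : extSum N (W n r) k (P ++ [x]) ≤ 0 := by
        apply extSum_zero
        intro L hL
        unfold W
        rw [if_neg]
        intro hw
        have h2 := wins_stop hL hq hs hw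
        have hne : P ≠ [] := by
          rintro rfl
          rw [Finset.mem_Icc] at hx
          simp [mx] at h
          omega
        have h3 : mx P ∈ L := by
          apply hL.subset
          exact List.mem_append_left _ (mx_mem hne)
        have h4 := h2 _ h3
        have h5 : x = mx P := le_antisymm h h4
        exact hxP (h5 ▸ mx_mem hne)
      refine h1.trans ?_
      have := g_nonneg (mx P) (P.length + 1)
      positivity
    · have hmx : mx (P ++ [x]) = x := by
        rw [mx_append, max_eq_right (by omega)]
      classical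
      have h1 : extSum N (W n r) k (P ++ [x]) ≤
          extSum N (fun L => if ∀ y ∈ L, y ≤ x then om n L else 0) k (P ++ [x]) := by
        apply extSum_mono
        intro L hL
        unfold W
        by_cases hw : Wins r L
        · have h2 := wins_stop hL hq hs hw
          rw [if_pos hw, if_pos h2]
        · rw [if_neg hw]
          split_ifs
          · exact om_nonneg _ _
          · exact le_rfl
      have h2 := E_bound (N := N) (n := n) (m := x) k (P ++ [x]) (by simp) hV' hl' hmx
      have h3 : extSum N (fun L => if ∀ y ∈ L, y ≤ x then om n L else 0) k (P ++ [x]) ≤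
          g x (P ++ [x]).length := by
        convert h2
      rw [List.length_append, List.length_singleton] at h3
      refine h1.trans (h3.trans ?_)
      have h4 : (1 : ℝ) ≤ max 1 (V n k * ((n : ℝ) / (P.length + 1 : ℕ))) := le_max_left _ _
      have h5 := g_nonneg x (P.length + 1)
      nlinarith

/-- The weight a rule can collect after a nonempty history. -/
lemma F_bound {N n : ℕ} (r : List ℕ → Bool) : ∀ k P, P ≠ [] → Valid N P → P.length + k = n →
    Quiet r P → extSum N (W n r) k P ≤ V n k * ((n : ℝ) / P.length * g (mx P) P.length) := by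
  intro k
  induction k with
  | zero =>
    intro P hP hV hl hq
    have h1 : W n r P = 0 := by
      unfold W
      rw [if_neg]
      rintro ⟨k, hk, h1, -, -⟩
      rw [hq k hk] at h1
      exact absurd h1 (by simp)
    change W n r P ≤ _
    rw [h1]
    simp [V]
  | succ k ih =>
    intro P hP hV hl hq
    have hVn := V_nonneg n k (by omega)
    have ht : 1 ≤ P.length := List.length_pos_iff.2 hP
    have ht' : (1 : ℝ) ≤ P.length := by exact_mod_cast ht
    have hk' : (P.length : ℝ) + (k + 1) = n := by exact_mod_cast hl
    change ∑ x ∈ (Icc 1 N).filter (· ∉ P), extSum N (W n r) k (P ++ [x]) ≤ _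
    have h1 : ∑ x ∈ (Icc 1 N).filter (· ∉ P), extSum N (W n r) k (P ++ [x]) ≤
        ∑ x ∈ (Icc 1 N).filter (· ∉ P),
          (if x ≤ mx P then V n k * ((n : ℝ) / (P.length + 1 : ℕ) * g (mx P) (P.length + 1)) else
            g x (P.length + 1) * max 1 (V n k * ((n : ℝ) / (P.length + 1 : ℕ)))) := by
      apply Finset.sum_le_sum
      intro x hx
      rw [Finset.mem_filter] at hx
      exact F_next ih hV hl hq hx.1 hx.2
    refine h1.trans ?_
    rw [sum_split hV (fun y hy => le_mx hy) hV.mx_le _
      (V n k * ((n : ℝ) / (P.length + 1 : ℕ) * g (mx P) (P.length + 1)))]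
    · have e1 : ∑ x ∈ Ioc (mx P) N,
          (if x ≤ mx P then V n k * ((n : ℝ) / (P.length + 1 : ℕ) * g (mx P) (P.length + 1)) else
            g x (P.length + 1) * max 1 (V n k * ((n : ℝ) / (P.length + 1 : ℕ)))) =
          (∑ x ∈ Ioc (mx P) N, g x (P.length + 1)) *
            max 1 (V n k * ((n : ℝ) / (P.length + 1 : ℕ))) := by
        rw [Finset.sum_mul]
        apply Finset.sum_congr rfl
        intro x hx
        rw [Finset.mem_Ioc] at hx
        rw [if_neg (by omega)]
      rw [e1]
      have hle : P.length ≤ mx P := hV.length_le (fun y hy => le_mx hy)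
      have h2 := g_sum ht hle N
      have h3 := g_step (mx P) P.length hle
      have h4 : (0 : ℝ) ≤ V n k * ((n : ℝ) / (P.length + 1 : ℕ)) := by positivity
      have h5 := mul_le_mul_of_nonneg_left h3 h4
      have h6 := mul_le_mul_of_nonneg_right h2
        (le_trans zero_le_one (le_max_left (1 : ℝ) (V n k * ((n : ℝ) / (P.length + 1 : ℕ)))))
      have hn0 : (0 : ℝ) < n := by linarith
      have hnk : (n : ℝ) - k = P.length + 1 := by linarith
      have e2 : V n (k + 1) * ((n : ℝ) / P.length * g (mx P) P.length) =
          V n k * ((n : ℝ) / (P.length + 1 : ℕ)) * g (mx P) P.length +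
          g (mx P) P.length / P.length * max 1 (V n k * ((n : ℝ) / (P.length + 1 : ℕ))) := by
        have e3 : max 1 (V n k * ((n : ℝ) / (P.length + 1 : ℕ))) =
            ((n : ℝ) / (P.length + 1 : ℕ)) * max (((n : ℝ) - k) / n) (V n k) := by
          rw [hnk, mul_max_of_nonneg _ _ (by positivity)]
          congr 1
          · push_cast
            field_simp
          · ring
        rw [e3]
        simp only [V]
        rw [hnk]
        push_cast
        field_simp
        ring
      rw [e2]
      linarith
    · intro x hx _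
      rw [Finset.mem_Icc] at hx
      rw [if_pos hx.2]

/-- The total weight a rule can collect. -/
lemma top_bound {N n : ℕ} (hn : 1 ≤ n) (hN : n ≤ N) (r : List ℕ → Bool) :
    extSum N (W n r) n [] ≤
      ((n : ℝ) - 1) + (∑ x ∈ Icc n N, (1 : ℝ) / x) * (n * (1 / Real.exp 1 + 1 / n)) := by
  obtain ⟨k, rfl⟩ : ∃ k, n = k + 1 := ⟨n - 1, by omega⟩
  change ∑ x ∈ (Icc 1 N).filter (· ∉ ([] : List ℕ)), extSum N (W (k + 1) r) k ([] ++ [x]) ≤ _
  have e0 : (Icc 1 N).filter (· ∉ ([] : List ℕ)) = Icc 1 k ∪ Icc (k + 1) N := by
    ext x
    simp only [Finset.mem_filter, Finset.mem_Icc, Finset.mem_union, List.not_mem_nil,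
      not_false_eq_true, and_true]
    omega
  have hd : Disjoint (Icc 1 k) (Icc (k + 1) N) := by
    rw [Finset.disjoint_left]
    intro x hx hx'
    rw [Finset.mem_Icc] at hx hx'
    omega
  have hVN : Valid N [] := ⟨List.nodup_nil, by simp⟩
  rw [e0, Finset.sum_union hd]
  have h1 : ∑ x ∈ Icc 1 k, extSum N (W (k + 1) r) k ([] ++ [x]) ≤ ((k + 1 : ℕ) : ℝ) - 1 := by
    have : ∀ x ∈ Icc 1 k, extSum N (W (k + 1) r) k ([] ++ [x]) ≤ 1 := by
      intro x hx
      rw [Finset.mem_Icc] at hx
      have h2 : extSum N (W (k + 1) r) k ([] ++ [x]) ≤ extSum N (om (k + 1)) k ([] ++ [x]) := by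
        apply extSum_mono
        intro L _
        unfold W
        split_ifs
        · exact le_rfl
        · exact om_nonneg _ _
      have h3 := T_bound hN k ([] ++ [x]) (by simp)
        (hVN.snoc (Finset.mem_Icc.2 ⟨hx.1, by omega⟩) (by simp)) (by simp [add_comm])
      have e1 : mx ([] ++ [x]) = x := by simp [mx]
      rw [e1, if_neg (by omega)] at h3
      refine h2.trans (h3.trans ?_)
      have hk : (1 : ℝ) ≤ k := by
        have : 1 ≤ k := by omega
        exact_mod_cast this
      simp only [List.nil_append, List.length_singleton, Nat.cast_one, div_one, g,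
        Nat.add_sub_cancel, Nat.descFactorial_one]
      push_cast
      apply le_of_eq
      field_simp
      ring
    refine (Finset.sum_le_sum this).trans ?_
    simp
  have h2 : ∑ x ∈ Icc (k + 1) N, extSum N (W (k + 1) r) k ([] ++ [x]) ≤
      (∑ x ∈ Icc (k + 1) N, (1 : ℝ) / x) *
        (((k + 1 : ℕ) : ℝ) * (1 / Real.exp 1 + 1 / (k + 1 : ℕ))) := by
    rw [Finset.sum_mul]
    apply Finset.sum_le_sum
    intro x hx
    rw [Finset.mem_Icc] at hx
    have h3 := F_next (N := N) (n := k + 1) (k := k) (r := r) (F_bound r k) (P := [])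
      hVN (by simp) (by intro j hj; simp at hj) (x := x)
      (Finset.mem_Icc.2 ⟨by omega, hx.2⟩) (by simp)
    have e1 : mx [] = 0 := rfl
    rw [e1, if_neg (by omega)] at h3
    refine h3.trans ?_
    have e2 : g x (([] : List ℕ).length + 1) = 1 / x := by
      simp [g]
    rw [e2]
    apply mul_le_mul_of_nonneg_left _ (by positivity)
    simp only [List.length_nil, zero_add, Nat.cast_one, div_one]
    have hk1 : (0 : ℝ) < ((k + 1 : ℕ) : ℝ) := by positivity
    apply max_le
    · rw [mul_add, mul_one_div_cancel hk1.ne']
      have : 0 ≤ ((k + 1 : ℕ) : ℝ) * (1 / Real.exp 1) := by positivity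
      linarith
    · rw [mul_comm]
      exact mul_le_mul_of_nonneg_left (V_le (k + 1) k le_rfl) hk1.le
  linarith

end Pool.Agent.Q218.Googol
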