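import Pool.Agent.Q218.Googol.Defs

set_option autoImplicit false

/-! # The value of the ordinal problem is at most `1 / e + 1 / n` -/

namespace Pool.Agent.Q218.Googol

/-- The value of the secretary problem with `n` candidates when `k` candidates are still to come
(and all earlier ones have been rejected). -/
noncomputable def V (n : ℕ) : ℕ → ℝ
  | 0 => 0
  | k + 1 => ((n : ℝ) - k - 1) / (n - k) * V n k +
      1 / ((n : ℝ) - k) * max (((n : ℝ) - k) / n) (V n k)

lemma V_nonneg (n : ℕ) : ∀ k, k ≤ n → 0 ≤ V n k := by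
  intro k
  induction k with
  | zero => intro _; exact le_rfl
  | succ k ih =>
    intro hk
    have hk' : (k : ℝ) + 1 ≤ n := by exact_mod_cast hk
    have h0 := ih (by omega)
    have h1 : (0 : ℝ) < n - k := by linarith
    have h2 : (0 : ℝ) ≤ n - k - 1 := by linarith
    simp only [V]
    have h3 : 0 ≤ max (((n : ℝ) - k) / n) (V n k) := le_max_of_le_right h0
    positivity

/-- the harmonic sum `1/s + … + 1/(n-1)` -/
noncomputable def h (s n : ℕ) : ℝ := ∑ j ∈ Finset.Ico s n, (1 : ℝ) / j

lemma h_le {s : ℕ} (hs : 1 ≤ s) : ∀ n, s + 1 ≤ n → h s n ≤ 1 / s + Real.log (((n : ℝ) - 1) / s) := by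
  intro n hn
  induction n, hn using Nat.le_induction with
  | base =>
    have : ((s + 1 : ℕ) : ℝ) - 1 = s := by push_cast; ring
    have hs' : (s : ℝ) ≠ 0 := by
      have : (1 : ℝ) ≤ s := by exact_mod_cast hs
      linarith
    rw [this, div_self hs', Real.log_one]
    simp [h]
  | succ n hn ih =>
    have h1 : h s (n + 1) = h s n + 1 / n := by
      unfold h
      rw [Finset.sum_Ico_succ_top (by omega)]
    have hs' : (1 : ℝ) ≤ s := by exact_mod_cast hs
    have hn' : (s : ℝ) + 1 ≤ n := by exact_mod_cast hn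
    have e : ((n + 1 : ℕ) : ℝ) - 1 = n := by push_cast; ring
    rw [h1, e]
    have h2 : Real.log ((n : ℝ) / s) = Real.log (((n : ℝ) - 1) / s) - Real.log (1 - 1 / n) := by
      rw [Real.log_div (by linarith) (by linarith), Real.log_div (by linarith) (by linarith)]
      have : (1 : ℝ) - 1 / n = (n - 1) / n := by
        have : (n : ℝ) ≠ 0 := by linarith
        field_simp
      rw [this, Real.log_div (by linarith) (by linarith)]
      ring
    have h3 : Real.log (1 - 1 / n) ≤ (1 - 1 / n) - 1 := by
      apply Real.log_le_sub_one_of_pos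
      rw [sub_pos, div_lt_one (by linarith)]
      linarith
    rw [h2]
    linarith

lemma log_le_div_exp {y : ℝ} (hy : 0 < y) : Real.log y ≤ y / Real.exp 1 := by
  have h1 := Real.log_le_sub_one_of_pos (x := y / Real.exp 1) (by positivity)
  rw [Real.log_div hy.ne' (Real.exp_pos 1).ne', Real.log_exp] at h1
  linarith

lemma psi_le {s n : ℕ} (hs : 1 ≤ s) (hn : s ≤ n) :
    (s : ℝ) / n * h s n ≤ 1 / Real.exp 1 + 1 / n := by
  have hs' : (1 : ℝ) ≤ s := by exact_mod_cast hs
  have hn' : (s : ℝ) ≤ n := by exact_mod_cast hn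
  rcases hn.eq_or_lt with rfl | hlt
  · have : h s s = 0 := by simp [h]
    rw [this, mul_zero]
    positivity
  · have h1 := h_le hs n hlt
    have hlt' : (s : ℝ) + 1 ≤ n := by exact_mod_cast hlt
    have h2 : Real.log (((n : ℝ) - 1) / s) ≤ Real.log ((n : ℝ) / s) := by
      apply Real.log_le_log
      · apply div_pos <;> linarith
      · apply div_le_div_of_nonneg_right _ (by linarith)
        linarith
    have h3 : Real.log ((n : ℝ) / s) ≤ (n / s) / Real.exp 1 := by
      apply log_le_div_exp
      apply div_pos <;> linarith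
    calc (s : ℝ) / n * h s n ≤ (s : ℝ) / n * (1 / s + (n / s) / Real.exp 1) := by
          apply mul_le_mul_of_nonneg_left _ (by positivity)
          linarith
      _ = 1 / Real.exp 1 + 1 / n := by
          have h01 : (s : ℝ) ≠ 0 := by linarith
          have h02 : (n : ℝ) ≠ 0 := by linarith
          field_simp
          ring

lemma V_le_psi (n : ℕ) : ∀ k, k + 2 ≤ n → h (n - k) n ≤ 1 →
    V n (k + 1) ≤ ((n - (k + 1) : ℕ) : ℝ) / n * h (n - (k + 1)) n := by
  intro k
  induction k with
  | zero =>
    intro hn _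
    have hn' : (2 : ℝ) ≤ n := by exact_mod_cast hn
    have e : h (n - (0 + 1)) n = 1 / ((n : ℝ) - 1) := by
      unfold h
      rw [Finset.sum_Ico_eq_sum_range]
      have : n - (n - (0 + 1)) = 1 := by omega
      rw [this, Finset.sum_range_one]
      rw [add_zero, Nat.cast_sub (by omega)]
      simp
    rw [e, Nat.cast_sub (by omega)]
    simp only [V]
    have h1 : max (((n : ℝ) - (0 : ℕ)) / n) 0 = 1 := by
      rw [Nat.cast_zero, sub_zero, div_self (by linarith)]
      simp
    rw [h1]
    have : (n : ℝ) - 1 ≠ 0 := by linarith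
    have : (n : ℝ) ≠ 0 := by linarith
    push_cast
    field_simp
    rw [sub_zero, zero_mul, zero_add, mul_one]
    exact (div_self this).le
  | succ k ih =>
    intro hn hh
    have hn' : (k : ℝ) + 3 ≤ n := by exact_mod_cast hn
    have e1 : h (n - (k + 1)) n = 1 / ((n : ℝ) - (k + 1)) + h (n - k) n := by
      unfold h
      rw [Finset.sum_eq_sum_Ico_succ_bot (by omega : n - (k + 1) < n)]
      have : n - (k + 1) + 1 = n - k := by omega
      rw [this, Nat.cast_sub (by omega)]
      push_cast
      ring
    have e2 : h (n - (k + 1 + 1)) n = 1 / ((n : ℝ) - (k + 2)) + h (n - (k + 1)) n := by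
      unfold h
      rw [Finset.sum_eq_sum_Ico_succ_bot (by omega : n - (k + 1 + 1) < n)]
      have : n - (k + 1 + 1) + 1 = n - (k + 1) := by omega
      rw [this, Nat.cast_sub (by omega)]
      push_cast
      ring
    have hpos : (0 : ℝ) < 1 / ((n : ℝ) - (k + 1)) := by
      apply one_div_pos.2
      linarith
    have hprev := ih (by omega) (by linarith)
    have hc1 : ((n - (k + 1) : ℕ) : ℝ) = n - (k + 1) := by
      rw [Nat.cast_sub (by omega)]; push_cast; ring
    have hc2 : ((n - (k + 1 + 1) : ℕ) : ℝ) = n - (k + 2) := by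
      rw [Nat.cast_sub (by omega)]; push_cast; ring
    rw [hc1] at hprev
    have hle : V n (k + 1) ≤ ((n : ℝ) - (k + 1)) / n := by
      refine hprev.trans ?_
      have : (0 : ℝ) ≤ ((n : ℝ) - (k + 1)) / n := by
        apply div_nonneg <;> linarith
      nlinarith
    rw [hc2, e2]
    rw [show V n (k + 1 + 1) = ((n : ℝ) - (k + 1 : ℕ) - 1) / (n - (k + 1 : ℕ)) * V n (k + 1) +
      1 / ((n : ℝ) - (k + 1 : ℕ)) * max (((n : ℝ) - (k + 1 : ℕ)) / n) (V n (k + 1)) from rfl]
    push_cast
    rw [max_eq_left hle]
    have hd : (n : ℝ) - (k + 1) ≠ 0 := by linarith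
    have hd2 : (n : ℝ) - (k + 2) ≠ 0 := by linarith
    have hn0 : (n : ℝ) ≠ 0 := by linarith
    have h5 : ((n : ℝ) - (k + 1) - 1) / (n - (k + 1)) * V n (k + 1) ≤
        ((n : ℝ) - (k + 1) - 1) / (n - (k + 1)) * (((n : ℝ) - (k + 1)) / n * h (n - (k + 1)) n) := by
      apply mul_le_mul_of_nonneg_left hprev
      apply div_nonneg <;> linarith
    refine (add_le_add_left h5 _).trans (le_of_eq ?_)
    field_simp
    ring

/-- The value of the secretary problem is at most `1 / e + 1 / n`. -/
lemma V_le (n : ℕ) : ∀ k, k + 1 ≤ n → V n k ≤ 1 / Real.exp 1 + 1 / n := by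
  intro k
  induction k with
  | zero =>
    intro _
    simp only [V]
    positivity
  | succ k ih =>
    intro hk
    have hk' : (k : ℝ) + 2 ≤ n := by exact_mod_cast hk
    have h0 := ih (by omega)
    by_cases hh : h (n - k) n ≤ 1
    · exact (V_le_psi n k (by omega) hh).trans (psi_le (by omega) (by omega))
    · push Not at hh
      have h1 : ((n : ℝ) - k) / n ≤ 1 / Real.exp 1 + 1 / n := by
        refine le_trans ?_ (psi_le (s := n - k) (n := n) (by omega) (by omega))
        have e : ((n - k : ℕ) : ℝ) = n - k := by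
          rw [Nat.cast_sub (by omega)]
        rw [e]
        have : (0 : ℝ) ≤ ((n : ℝ) - k) / n := by
          apply div_nonneg <;> linarith
        nlinarith
      have h2 := max_le h1 h0
      simp only [V]
      set c := 1 / Real.exp 1 + 1 / (n : ℝ) with hc
      have h3 : (0 : ℝ) < n - k := by linarith
      have h4 : ((n : ℝ) - k - 1) / (n - k) * V n k ≤ ((n : ℝ) - k - 1) / (n - k) * c := by
        apply mul_le_mul_of_nonneg_left h0
        apply div_nonneg <;> linarith
      have h5 : 1 / ((n : ℝ) - k) * max (((n : ℝ) - k) / n) (V n k) ≤ 1 / ((n : ℝ) - k) * c := by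
        apply mul_le_mul_of_nonneg_left h2
        positivity
      refine (add_le_add h4 h5).trans (le_of_eq ?_)
      field_simp
      ring

end Pool.Agent.Q218.Googol
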